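import Mathlib

/-! Minimal Sullivan algebras with a differential of homogeneous word length: the definitions used
by the hand-in. -/

namespace Pool.Agent.H68.Sullivan

section

variable {K A : Type*} [Field K] [Ring A] [Algebra K A]

/-- The cohomology `ker d / im d` of a linear map `d`. -/
def Coh (d : A →ₗ[K] A) : Type _ :=
  LinearMap.ker d ⧸ (LinearMap.range d).submoduleOf (LinearMap.ker d)

noncomputable instance (d : A →ₗ[K] A) : AddCommGroup (Coh d) :=
  Submodule.Quotient.addCommGroup _

noncomputable instance (d : A →ₗ[K] A) : Module K (Coh d) :=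
  Submodule.Quotient.module _

end

/-- The polynomial ring `K[x_1, .., x_q]`. -/
def Pol (K : Type*) [Field K] (q : ℕ) : Type _ := MvPolynomial (Fin q) K

noncomputable instance (K : Type*) [Field K] (q : ℕ) : CommRing (Pol K q) :=
  (inferInstance : CommRing (MvPolynomial (Fin q) K))

noncomputable instance (K : Type*) [Field K] (q : ℕ) : Algebra K (Pol K q) :=
  (inferInstance : Algebra K (MvPolynomial (Fin q) K))

/-- The free `K[x_1, .., x_q]`-module on `y_1, .., y_m`. -/
def Free (K : Type*) [Field K] (q m : ℕ) : Type _ := Fin m → Pol K q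

noncomputable instance (K : Type*) [Field K] (q m : ℕ) : AddCommGroup (Free K q m) :=
  (inferInstance : AddCommGroup (Fin m → Pol K q))

noncomputable instance (K : Type*) [Field K] (q m : ℕ) : Module (Pol K q) (Free K q m) :=
  (inferInstance : Module (Pol K q) (Fin m → Pol K q))

/-- The free graded commutative algebra `ΛV` on generators `x_1, .., x_q` of even degree and
`y_1, .., y_m` of odd degree: the exterior algebra on the `y_j` over the polynomial ring in the
`x_i`. -/
def Lam (K : Type*) [Field K] (q m : ℕ) : Type _ := ExteriorAlgebra (Pol K q) (Free K q m)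

noncomputable instance (K : Type*) [Field K] (q m : ℕ) : Ring (Lam K q m) :=
  (inferInstance : Ring (ExteriorAlgebra (Pol K q) (Free K q m)))

noncomputable instance (K : Type*) [Field K] (q m : ℕ) : Algebra K (Lam K q m) :=
  (inferInstance : Algebra K (ExteriorAlgebra (Pol K q) (Fin m → Pol K q)))

noncomputable instance (K : Type*) [Field K] (q m : ℕ) : Algebra (Pol K q) (Lam K q m) :=
  (inferInstance : Algebra (Pol K q) (ExteriorAlgebra (Pol K q) (Free K q m)))

/-- The variable `x_i` of the polynomial ring. -/
noncomputable def var (K : Type*) [Field K] (q : ℕ) (i : Fin q) : Pol K q :=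
  (MvPolynomial.X i : MvPolynomial (Fin q) K)

/-- The basis vector `y_j` of the free module. -/
noncomputable def vec (K : Type*) [Field K] (q m : ℕ) (j : Fin m) : Free K q m :=
  fun i => if i = j then 1 else 0

/-- The generator `x_i` of `ΛV`. -/
noncomputable def genX (K : Type*) [Field K] (q m : ℕ) (i : Fin q) : Lam K q m :=
  algebraMap (Pol K q) (Lam K q m) (var K q i)

/-- The generator `y_j` of `ΛV`. -/
noncomputable def genY (K : Type*) [Field K] (q m : ℕ) (j : Fin m) : Lam K q m :=
  (ExteriorAlgebra.ι (Pol K q)).toFun (vec K q m j)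

/-- The generators of `ΛV`: `Sum.inl i` stands for `x_i`, `Sum.inr j` for `y_j`. -/
noncomputable def gen (K : Type*) [Field K] (q m : ℕ) (v : Fin q ⊕ Fin m) : Lam K q m :=
  v.elim (genX K q m) (genY K q m)

/-- The component of degree `n` and word length `l` of `ΛV`: the span of the products of `l`
generators whose degrees sum to `n`. -/
noncomputable def comp (K : Type*) [Field K] {q m : ℕ} (deg : Fin q ⊕ Fin m → ℕ) (n l : ℕ) :
    Submodule K (Lam K q m) :=
  Submodule.span K {a | ∃ L : List (Fin q ⊕ Fin m),
    L.length = l ∧ (L.map deg).sum = n ∧ (L.map (gen K q m)).prod = a}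

/-- `d` is a differential on `ΛV` (a graded derivation of degree `+1` with square zero) all of
whose values on the generators have word length `k`; the generators `x_i` have even degrees, the
generators `y_j` have odd degrees, and all these degrees are at least `2`. -/
structure IsDiff {K : Type*} [Field K] {q m : ℕ} (deg : Fin q ⊕ Fin m → ℕ) (k : ℕ)
    (d : Lam K q m → Lam K q m) : Prop where
  even_deg : ∀ i : Fin q, Even (deg (Sum.inl i))
  odd_deg : ∀ j : Fin m, Odd (deg (Sum.inr j))
  two_le_deg : ∀ v, 2 ≤ deg v
  sq_zero : ∀ a, d (d a) = 0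
  leibniz : ∀ (n l : ℕ) (a b : Lam K q m), a ∈ comp K deg n l →
    d (a * b) = d a * b + (-1) ^ n * (a * d b)
  map_gen : ∀ v, d (gen K q m v) ∈ comp K deg (deg v + 1) k

end Pool.Agent.H68.Sullivan
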