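import Mathlib

/-! The monomial basis of the free graded commutative algebra. -/

namespace Pool.Agent.H68.Hil

open Finset

/-- The exterior algebra on the `y_j` over the polynomial ring in the `x_i`. -/
abbrev Lam (K : Type*) [Field K] (q m : ℕ) : Type _ :=
  ExteriorAlgebra (MvPolynomial (Fin q) K) (Fin m → MvPolynomial (Fin q) K)

/-- The generators: `Sum.inl i` stands for `x_i`, `Sum.inr j` for `y_j`. -/
noncomputable def gen (K : Type*) [Field K] (q m : ℕ) : Fin q ⊕ Fin m → Lam K q m :=
  Sum.elim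
    (fun i => algebraMap (MvPolynomial (Fin q) K) (Lam K q m) (MvPolynomial.X i))
    (fun j => ExteriorAlgebra.ι (MvPolynomial (Fin q) K) (Pi.single j 1))

variable {K : Type*} [Field K] {q m : ℕ}

/-- The monomial basis. -/
noncomputable def bas (K : Type*) [Field K] (q m : ℕ) :
    Module.Basis ((Fin q →₀ ℕ) × Finset (Fin m)) K (Lam K q m) :=
  (MvPolynomial.basisMonomials (Fin q) K).smulTower
    (Pi.basisFun (MvPolynomial (Fin q) K) (Fin m)).ExteriorAlgebra

/-- The exterior monomial `y_S`. -/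
noncomputable def ym (K : Type*) [Field K] (q : ℕ) {m : ℕ} (S : Finset (Fin m)) : Lam K q m :=
  (Pi.basisFun (MvPolynomial (Fin q) K) (Fin m)).ExteriorAlgebra S

theorem bas_apply (a : Fin q →₀ ℕ) (S : Finset (Fin m)) :
    bas K q m (a, S) = (MvPolynomial.monomial a (1 : K)) • ym K q S := by
  unfold bas ym
  rw [Module.Basis.smulTower_apply]
  simp

theorem ym_empty : ym K q (∅ : Finset (Fin m)) = 1 := by
  unfold ym
  rw [ExteriorAlgebra.basis_apply_ofCard _ (n := 0) (by simp)]
  simp [ExteriorAlgebra.ιMulti_family, ExteriorAlgebra.ιMulti_apply]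

theorem ym_singleton (j : Fin m) : ym K q ({j} : Finset (Fin m)) = gen K q m (Sum.inr j) := by
  unfold ym
  rw [ExteriorAlgebra.basis_apply_ofCard _ (n := 1) (by simp)]
  rw [ExteriorAlgebra.ιMulti_family, ExteriorAlgebra.ιMulti_apply]
  simp only [List.ofFn_succ, List.ofFn_zero, List.prod_cons, List.prod_nil, mul_one,
    Function.comp_apply]
  have h : (Set.powersetCard.ofFinEmbEquiv.symm
      (Set.powersetCard.ofCard (s := ({j} : Finset (Fin m))) (n := 1) (by simp))) 0 = j := by
    have h1 := (Set.powersetCard.mem_range_ofFinEmbEquiv_symm_iff_mem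
      (Set.powersetCard.ofCard (s := ({j} : Finset (Fin m))) (n := 1) (by simp))
      ((Set.powersetCard.ofFinEmbEquiv.symm
      (Set.powersetCard.ofCard (s := ({j} : Finset (Fin m))) (n := 1) (by simp))) 0)).mp ⟨0, rfl⟩
    change _ ∈ ({j} : Finset (Fin m)) at h1
    simpa using h1
  rw [h]
  simp [gen]

theorem gen_inr_mul_ym_of_mem (j : Fin m) (S : Finset (Fin m)) (hj : j ∈ S) :
    gen K q m (Sum.inr j) * ym K q S = 0 := by
  rw [← ym_singleton]
  unfold ym
  exact ExteriorAlgebra.basis_mul_of_not_disjoint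
    (Pi.basisFun (MvPolynomial (Fin q) K) (Fin m))
    (⟨{j}, by simp [Set.powersetCard]⟩ : Set.powersetCard (Fin m) 1)
    (⟨S, by simp [Set.powersetCard]⟩ : Set.powersetCard (Fin m) S.card)
    (by simpa using hj)

theorem gen_inr_mul_ym (j : Fin m) (S : Finset (Fin m)) (hj : j ∉ S) :
    gen K q m (Sum.inr j) * ym K q S = ym K q (insert j S) ∨
    gen K q m (Sum.inr j) * ym K q S = - ym K q (insert j S) := by
  rw [← ym_singleton]
  let s1 : Set.powersetCard (Fin m) 1 := ⟨{j}, by simp [Set.powersetCard]⟩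
  let s2 : Set.powersetCard (Fin m) S.card := ⟨S, by simp [Set.powersetCard]⟩
  have hdis : Disjoint (s1 : Finset (Fin m)) (s2 : Finset (Fin m)) := by
    simpa [s1, s2] using hj
  have h := ExteriorAlgebra.basis_mul_of_disjoint
    (Pi.basisFun (MvPolynomial (Fin q) K) (Fin m)) s1 s2 hdis
  have hval : ((Set.powersetCard.disjUnion hdis : Set.powersetCard (Fin m) (1 + S.card)) :
      Finset (Fin m)) = insert j S := by
    ext x
    simp [Set.powersetCard.disjUnion, s1, s2]
  rw [hval] at h
  change ym K q {j} * ym K q S = _ • ym K q (insert j S) at h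
  rw [h]
  rcases Int.units_eq_one_or (Equiv.Perm.sign (Set.powersetCard.permOfDisjoint hdis)) with h1 | h1
  · left; rw [h1]; simp
  · right; rw [h1]; simp

theorem gen_inl_mul_bas (i : Fin q) (a : Fin q →₀ ℕ) (S : Finset (Fin m)) :
    gen K q m (Sum.inl i) * bas K q m (a, S) = bas K q m (a + Finsupp.single i 1, S) := by
  rw [bas_apply, bas_apply]
  simp only [gen, Sum.elim_inl]
  rw [← Algebra.smul_def, smul_smul]
  congr 1
  rw [MvPolynomial.X, MvPolynomial.monomial_mul, mul_one, add_comm]

theorem gen_inr_mul_bas_of_mem (j : Fin m) (a : Fin q →₀ ℕ) (S : Finset (Fin m)) (hj : j ∈ S) :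
    gen K q m (Sum.inr j) * bas K q m (a, S) = 0 := by
  rw [bas_apply, mul_smul_comm, gen_inr_mul_ym_of_mem j S hj, smul_zero]

theorem gen_inr_mul_bas (j : Fin m) (a : Fin q →₀ ℕ) (S : Finset (Fin m)) (hj : j ∉ S) :
    gen K q m (Sum.inr j) * bas K q m (a, S) = bas K q m (a, insert j S) ∨
    gen K q m (Sum.inr j) * bas K q m (a, S) = - bas K q m (a, insert j S) := by
  rw [bas_apply, bas_apply, mul_smul_comm]
  rcases gen_inr_mul_ym (K := K) (q := q) j S hj with h | h
  · left; rw [h]
  · right; rw [h, smul_neg]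

theorem bas_zero : bas K q m (0, ∅) = 1 := by
  rw [bas_apply, ym_empty]
  simp

end Pool.Agent.H68.Hil
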