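import Mathlib

/-! Integer polynomials with a high order zero at `1` have large coefficient sum
(Prouhet, Tarry, Escott; via Newton's identities). -/

namespace Pool.Agent.H68.Hil

open Finset Polynomial

/-- Two families of integers with equal power sums have the same elementary symmetric functions. -/
theorem esymm_eq {s : ℕ} (a b : Fin s → ℤ)
    (h : ∀ j, 1 ≤ j → j ≤ s → ∑ i, a i ^ j = ∑ i, b i ^ j) :
    ∀ k, k ≤ s → ((univ : Finset (Fin s)).val.map a).esymm k
      = ((univ : Finset (Fin s)).val.map b).esymm k := by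
  intro k
  induction k using Nat.strong_induction_on with
  | _ k ih =>
    intro hk
    rcases Nat.eq_zero_or_pos k with rfl | hpos
    · simp [Multiset.esymm]
    · have key := MvPolynomial.mul_esymm_eq_sum (Fin s) ℤ k
      have ka := congrArg (MvPolynomial.aeval a) key
      have kb := congrArg (MvPolynomial.aeval b) key
      simp only [map_mul, map_natCast, map_pow, map_neg, map_one, map_sum,
        MvPolynomial.aeval_esymm_eq_multiset_esymm] at ka kb
      have hk0 : (k : ℤ) ≠ 0 := by exact_mod_cast hpos.ne'
      apply mul_left_cancel₀ hk0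
      rw [ka, kb]
      congr 1
      apply Finset.sum_congr rfl
      rintro ⟨u, v⟩ huv
      rw [mem_filter, HasAntidiagonal.mem_antidiagonal] at huv
      obtain ⟨h1, h2⟩ := huv
      simp only at h1 h2
      rw [ih u h2 (by omega)]
      congr 1
      simp only [MvPolynomial.psum, map_sum, map_pow, MvPolynomial.aeval_X]
      exact h v (by omega) (by omega)

theorem map_eq_of_psum {s : ℕ} (a b : Fin s → ℤ)
    (h : ∀ j, 1 ≤ j → j ≤ s → ∑ i, a i ^ j = ∑ i, b i ^ j) :
    (univ : Finset (Fin s)).val.map a = (univ : Finset (Fin s)).val.map b := by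
  have h1 : (((univ : Finset (Fin s)).val.map a).map fun t => X - C t).prod
      = (((univ : Finset (Fin s)).val.map b).map fun t => X - C t).prod := by
    rw [Multiset.prod_X_sub_X_eq_sum_esymm, Multiset.prod_X_sub_X_eq_sum_esymm]
    have hca : Multiset.card ((univ : Finset (Fin s)).val.map a) = s := by simp
    have hcb : Multiset.card ((univ : Finset (Fin s)).val.map b) = s := by simp
    rw [hca, hcb]
    apply Finset.sum_congr rfl
    intro j hj
    rw [Finset.mem_range] at hj
    rw [esymm_eq a b h j (by omega)]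
  have h2 := congrArg Polynomial.roots h1
  rwa [Polynomial.roots_multiset_prod_X_sub_C, Polynomial.roots_multiset_prod_X_sub_C] at h2

theorem multiset_eq_of_psum (A B : Multiset ℤ) (hc : Multiset.card A = Multiset.card B)
    (h : ∀ j, 1 ≤ j → j ≤ Multiset.card A → (A.map (· ^ j)).sum = (B.map (· ^ j)).sum) :
    A = B := by
  induction A using Quotient.inductionOn with
  | _ la =>
  induction B using Quotient.inductionOn with
  | _ lb =>
  change (la : Multiset ℤ) = (lb : Multiset ℤ)
  change Multiset.card (la : Multiset ℤ) = Multiset.card (lb : Multiset ℤ) at hc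
  rw [Multiset.coe_card, Multiset.coe_card] at hc
  have ha : (la : Multiset ℤ) = (univ : Finset (Fin la.length)).val.map la.get := by
    rw [Fin.univ_val_map, List.ofFn_get]
  have hb : (lb : Multiset ℤ)
      = (univ : Finset (Fin la.length)).val.map (fun i => lb.get (Fin.cast hc i)) := by
    have : (lb : Multiset ℤ) = (univ : Finset (Fin lb.length)).val.map lb.get := by
      rw [Fin.univ_val_map, List.ofFn_get]
    rw [this]
    rw [Fin.univ_val_map, Fin.univ_val_map]
    congr 1
    apply List.ext_get
    · simp [hc]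
    · intro n h1 h2
      simp
  rw [ha, hb]
  apply map_eq_of_psum
  intro j hj1 hj2
  have h3 := h j hj1 (by simpa using hj2)
  change (((la : Multiset ℤ)).map (· ^ j)).sum = (((lb : Multiset ℤ)).map (· ^ j)).sum at h3
  rw [ha, hb] at h3
  rw [Multiset.map_map, Multiset.map_map] at h3
  exact h3

/-- The operator `X * d/dX` lowers the order of the zero at `1` by at most one. -/
theorem theta_dvd (G : ℤ[X]) (k : ℕ) (h : (X - 1) ^ (k + 1) ∣ G) :
    (X - 1) ^ k ∣ X * derivative G := by
  obtain ⟨Q, rfl⟩ := h
  rw [derivative_mul, derivative_pow]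
  refine Dvd.dvd.mul_left ?_ _
  refine dvd_add ?_ ?_
  · refine Dvd.dvd.mul_right ?_ _
    refine Dvd.dvd.mul_right ?_ _
    refine Dvd.dvd.mul_left ?_ _
    simp
  · refine Dvd.dvd.mul_right ?_ _
    exact pow_dvd_pow _ (by omega)

/-- Iterating: the polynomial with coefficients `n ^ j * c_n`. -/
theorem exists_theta (G : ℤ[X]) (m : ℕ) (h : (X - 1) ^ m ∣ G) (j : ℕ) (hj : j ≤ m) :
    ∃ F : ℤ[X], (X - 1) ^ (m - j) ∣ F ∧ ∀ n, F.coeff n = (n : ℤ) ^ j * G.coeff n := by
  induction j with
  | zero => exact ⟨G, by simpa using h, by simp⟩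
  | succ j ih =>
    obtain ⟨F, hF, hc⟩ := ih (by omega)
    refine ⟨X * derivative F, ?_, ?_⟩
    · apply theta_dvd
      have : m - (j + 1) + 1 = m - j := by omega
      rwa [this]
    · intro n
      cases n with
      | zero => simp
      | succ n =>
        rw [coeff_X_mul, coeff_derivative, hc]
        push_cast
        ring

theorem sum_pow_eq_zero (G : ℤ[X]) (m : ℕ) (h : (X - 1) ^ m ∣ G) (j : ℕ) (hj : j < m) :
    ∑ n ∈ G.support, (n : ℤ) ^ j * G.coeff n = 0 := by
  obtain ⟨F, hF, hc⟩ := exists_theta G m h j hj.le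
  have h1 : F.eval 1 = 0 := by
    have : (X - 1) ∣ F := (dvd_pow_self _ (by omega)).trans hF
    obtain ⟨Q, rfl⟩ := this
    simp
  have hs : F.support ⊆ G.support := by
    intro n hn
    rw [mem_support_iff] at hn ⊢
    intro h0
    apply hn
    rw [hc, h0, mul_zero]
  rw [eval_eq_sum, Polynomial.sum_def] at h1
  simp only [one_pow, mul_one] at h1
  rw [← h1]
  symm
  rw [Finset.sum_subset hs]
  · exact Finset.sum_congr rfl (fun n _ => hc n)
  · intro n _ hn
    simpa [mem_support_iff] using hn

/-- **An integer polynomial with a zero of order `m` at `1` has coefficient sum at least `2m`.** -/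
theorem two_mul_le_l1 (G : ℤ[X]) (hG : G ≠ 0) (m : ℕ) (h : (X - 1) ^ m ∣ G) :
    2 * m ≤ ∑ n ∈ G.support, (G.coeff n).natAbs := by
  by_contra hlt
  push Not at hlt
  set A : Multiset ℤ := ∑ n ∈ G.support, Multiset.replicate (G.coeff n).toNat (n : ℤ) with hA
  set B : Multiset ℤ := ∑ n ∈ G.support, Multiset.replicate (-G.coeff n).toNat (n : ℤ) with hB
  have hcA : Multiset.card A = ∑ n ∈ G.support, (G.coeff n).toNat := by
    rw [hA, Multiset.card_sum]; simp
  have hcB : Multiset.card B = ∑ n ∈ G.support, (-G.coeff n).toNat := by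
    rw [hB, Multiset.card_sum]; simp
  have hsum : Multiset.card A + Multiset.card B = ∑ n ∈ G.support, (G.coeff n).natAbs := by
    rw [hcA, hcB, ← Finset.sum_add_distrib]
    apply Finset.sum_congr rfl
    intro n _
    omega
  have hp : ∀ j, ((A.map (· ^ j)).sum : ℤ) - (B.map (· ^ j)).sum
      = ∑ n ∈ G.support, (n : ℤ) ^ j * G.coeff n := by
    intro j
    have e1 : (A.map (· ^ j)).sum = ∑ n ∈ G.support, ((G.coeff n).toNat : ℤ) * (n : ℤ) ^ j := by
      rw [hA]
      have := map_sum (Multiset.mapAddMonoidHom (fun z : ℤ => z ^ j))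
        (fun n : ℕ => Multiset.replicate (G.coeff n).toNat (n : ℤ)) G.support
      simp only [Multiset.coe_mapAddMonoidHom] at this
      rw [this, Multiset.sum_sum]
      simp
    have e2 : (B.map (· ^ j)).sum = ∑ n ∈ G.support, ((-G.coeff n).toNat : ℤ) * (n : ℤ) ^ j := by
      rw [hB]
      have := map_sum (Multiset.mapAddMonoidHom (fun z : ℤ => z ^ j))
        (fun n : ℕ => Multiset.replicate (-G.coeff n).toNat (n : ℤ)) G.support
      simp only [Multiset.coe_mapAddMonoidHom] at this
      rw [this, Multiset.sum_sum]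
      simp
    rw [e1, e2, ← Finset.sum_sub_distrib]
    apply Finset.sum_congr rfl
    intro n _
    have : ((G.coeff n).toNat : ℤ) - ((-G.coeff n).toNat : ℤ) = G.coeff n := by omega
    linear_combination (n : ℤ) ^ j * this
  have hm : 0 < m := by
    rcases Nat.eq_zero_or_pos m with h0 | h0
    · subst h0; simp at hlt
    · exact h0
  have hcard : Multiset.card A = Multiset.card B := by
    have h0 := hp 0
    rw [sum_pow_eq_zero G m h 0 hm] at h0
    simp at h0
    have : (Multiset.card A : ℤ) = Multiset.card B := by linarith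
    exact_mod_cast this
  have hAB : A = B := by
    apply multiset_eq_of_psum A B hcard
    intro j _ hj2
    have h0 := hp j
    rw [sum_pow_eq_zero G m h j (by omega)] at h0
    linarith
  -- compare multiplicities
  obtain ⟨n, hn⟩ := Polynomial.support_nonempty.mpr hG
  have c1 : A.count (n : ℤ) = (G.coeff n).toNat := by
    rw [hA, Multiset.count_sum']
    rw [Finset.sum_eq_single n]
    · simp
    · intro k _ hk
      rw [Multiset.count_replicate, if_neg]
      exact_mod_cast hk
    · intro h'; exact absurd hn h'
  have c2 : B.count (n : ℤ) = (-G.coeff n).toNat := by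
    rw [hB, Multiset.count_sum']
    rw [Finset.sum_eq_single n]
    · simp
    · intro k _ hk
      rw [Multiset.count_replicate, if_neg]
      exact_mod_cast hk
    · intro h'; exact absurd hn h'
  rw [hAB, c2] at c1
  rw [mem_support_iff] at hn
  omega

end Pool.Agent.H68.Hil
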