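import Mathlib
import Pool.Agent.H68.Hil.PTE

/-! The polynomial `F = prod (1 - X^(wy j)) / prod (1 - X^(wx i))` with `wx` odd and `wy` even. -/

namespace Pool.Agent.H68.Hil

open Finset Polynomial

theorem coeff_comp_negX (F : ℤ[X]) (n : ℕ) : (F.comp (-X)).coeff n = (-1) ^ n * F.coeff n := by
  have : (-X : ℤ[X]) = C (-1) * X := by simp
  rw [this, comp_C_mul_X_coeff, mul_comm]

theorem support_comp_negX (F : ℤ[X]) : (F.comp (-X)).support = F.support := by
  ext n
  rw [mem_support_iff, mem_support_iff, coeff_comp_negX]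
  simp

theorem X_sub_one_dvd (w : ℕ) : (X - 1 : ℤ[X]) ∣ 1 - X ^ w := by
  have : (X - 1 : ℤ[X]) ∣ X ^ w - 1 := by
    simpa using sub_dvd_pow_sub_pow (X : ℤ[X]) 1 w
  have h2 := this.neg_right
  simpa using h2

theorem rootMult_le_one (w : ℕ) (hw : 0 < w) : (1 - X ^ w : ℤ[X]).rootMultiplicity (-1) ≤ 1 := by
  by_contra h
  push Not at h
  have hne : (1 - X ^ w : ℤ[X]) ≠ 0 := by
    intro h0
    have := congrArg (fun p => p.eval 2) h0
    simp only [eval_sub, eval_one, eval_pow, eval_X, eval_zero] at this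
    have h3 : (2 : ℤ) ^ w = 1 := by linarith
    have h4 : (1 : ℤ) < 2 ^ w := one_lt_pow₀ (by norm_num) hw.ne'
    omega
  have h1 : (X + 1 : ℤ[X]) ^ 2 ∣ 1 - X ^ w := by
    have := (le_rootMultiplicity_iff hne).mp h
    simpa using this
  obtain ⟨Q, hQ⟩ := h1
  have h2 := congrArg (fun p => (derivative p).eval (-1)) hQ
  simp only [derivative_mul, derivative_sub, derivative_one, derivative_pow, derivative_X,
    derivative_add] at h2
  simp at h2
  exact hw.ne' h2

/-- **Main numerical statement.** -/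
theorem main_poly {q m : ℕ} (wx : Fin q → ℕ) (wy : Fin m → ℕ) (hx : ∀ i, Odd (wx i))
    (hy : ∀ j, Even (wy j)) (hy0 : ∀ j, 0 < wy j) (F : ℤ[X])
    (hF : F * ∏ i, (1 - X ^ wx i) = ∏ j, (1 - X ^ wy j)) :
    q ≤ m ∧ 2 * m ≤ ∑ n ∈ F.support, (F.coeff n).natAbs := by
  have hR0 : (∏ j, (1 - X ^ wy j) : ℤ[X]) ≠ 0 := by
    rw [Finset.prod_ne_zero_iff]
    intro j _ h0
    have := congrArg (fun p => p.eval 2) h0
    simp only [eval_sub, eval_one, eval_pow, eval_X, eval_zero] at this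
    have h3 : (2 : ℤ) ^ wy j = 1 := by linarith
    have h4 : (1 : ℤ) < 2 ^ wy j := one_lt_pow₀ (by norm_num) (hy0 j).ne'
    omega
  have hG : F.comp (-X) * ∏ i, (1 + X ^ wx i) = ∏ j, (1 - X ^ wy j) := by
    have h := congrArg (fun p => p.comp (-X)) hF
    simp only [mul_comp, Polynomial.prod_comp, sub_comp, one_comp, pow_comp, X_comp] at h
    have e1 : (∏ i, (1 - (-X) ^ wx i) : ℤ[X]) = ∏ i, (1 + X ^ wx i) := by
      apply Finset.prod_congr rfl
      intro i _
      rw [(hx i).neg_pow, sub_neg_eq_add]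
    have e2 : (∏ j, (1 - (-X) ^ wy j) : ℤ[X]) = ∏ j, (1 - X ^ wy j) := by
      apply Finset.prod_congr rfl
      intro j _
      rw [(hy j).neg_pow]
    rw [e1, e2] at h
    exact h
  have hGne : F.comp (-X) ≠ 0 := by
    intro h0
    rw [h0, zero_mul] at hG
    exact hR0 hG.symm
  have hprodne : (∏ i, (1 + X ^ wx i) : ℤ[X]) ≠ 0 := by
    intro h0
    rw [h0, mul_zero] at hG
    exact hR0 hG.symm
  constructor
  · -- order at `-1`
    have h1 : (X + 1 : ℤ[X]) ^ q ∣ ∏ j, (1 - X ^ wy j) := by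
      rw [← hG]
      refine Dvd.dvd.mul_left ?_ _
      have : (X + 1 : ℤ[X]) ^ q = ∏ _i : Fin q, (X + 1 : ℤ[X]) := by simp
      rw [this]
      apply Finset.prod_dvd_prod_of_dvd
      intro i _
      have h2 : (X - (-1) : ℤ[X]) ∣ X ^ wx i - (-1) ^ wx i := sub_dvd_pow_sub_pow _ _ _
      rw [(hx i).neg_one_pow] at h2
      have e1 : (X - (-1) : ℤ[X]) = X + 1 := by ring
      have e2 : (X ^ wx i - (-1) : ℤ[X]) = 1 + X ^ wx i := by ring
      rwa [e1, e2] at h2
    have h2 : q ≤ (∏ j, (1 - X ^ wy j) : ℤ[X]).rootMultiplicity (-1) := by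
      rw [le_rootMultiplicity_iff hR0]
      simpa using h1
    have h3 : (∏ j, (1 - X ^ wy j) : ℤ[X]).rootMultiplicity (-1)
        = ∑ j, (1 - X ^ wy j : ℤ[X]).rootMultiplicity (-1) := by
      rw [← count_roots, roots_prod _ _ hR0, Multiset.count_bind]
      simp only [count_roots]
      rfl
    rw [h3] at h2
    refine h2.trans ((Finset.sum_le_sum (fun j _ => rootMult_le_one (wy j) (hy0 j))).trans ?_)
    simp
  · have h1 : (X - 1 : ℤ[X]) ^ m ∣ F.comp (-X) * ∏ i, (1 + X ^ wx i) := by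
      rw [hG]
      have : (X - 1 : ℤ[X]) ^ m = ∏ _j : Fin m, (X - 1 : ℤ[X]) := by simp
      rw [this]
      apply Finset.prod_dvd_prod_of_dvd
      intro j _
      exact X_sub_one_dvd _
    have hprime : Prime (X - 1 : ℤ[X]) := by
      simpa using prime_X_sub_C (1 : ℤ)
    have hnd : ¬ (X - 1 : ℤ[X]) ∣ ∏ i, (1 + X ^ wx i) := by
      rintro ⟨Q, hQ⟩
      have := congrArg (fun p => p.eval 1) hQ
      simp only [eval_prod, eval_add, eval_one, eval_pow, eval_X, one_pow, eval_mul, eval_sub,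
        sub_self, zero_mul] at this
      norm_num at this
    have h2 : (X - 1 : ℤ[X]) ^ m ∣ F.comp (-X) := hprime.pow_dvd_of_dvd_mul_right m hnd h1
    have h3 := two_mul_le_l1 _ hGne m h2
    rw [support_comp_negX] at h3
    refine h3.trans (le_of_eq ?_)
    apply Finset.sum_congr rfl
    intro n _
    rw [coeff_comp_negX, Int.natAbs_mul]
    simp [Int.natAbs_pow]

end Pool.Agent.H68.Hil
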