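import Mathlib
import Pool.Agent.H68.Hil.Poly

/-! Counting the monomials of a free graded commutative algebra by weight and parity. -/

namespace Pool.Agent.H68.Hil

open Finset

variable {q m : ℕ}

/-- Weight of the monomial `x^a y_S`. -/
def wt (wx : Fin q → ℕ) (wy : Fin m → ℕ) (p : (Fin q →₀ ℕ) × Finset (Fin m)) : ℕ :=
  ∑ i, p.1 i * wx i + ∑ j ∈ p.2, wy j

theorem le_of_wt (wx : Fin q → ℕ) (wy : Fin m → ℕ) (hx : ∀ i, 0 < wx i)
    (p : (Fin q →₀ ℕ) × Finset (Fin m)) (i : Fin q) : p.1 i ≤ wt wx wy p := by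
  have h1 : p.1 i * wx i ≤ ∑ i, p.1 i * wx i :=
    Finset.single_le_sum (f := fun i => p.1 i * wx i) (fun _ _ => Nat.zero_le _) (mem_univ i)
  have h2 : p.1 i ≤ p.1 i * wx i := Nat.le_mul_of_pos_right _ (hx i)
  unfold wt
  omega

theorem finite_wt (wx : Fin q → ℕ) (wy : Fin m → ℕ) (hx : ∀ i, 0 < wx i) (w : ℕ) :
    {p : (Fin q →₀ ℕ) × Finset (Fin m) | wt wx wy p ≤ w}.Finite := by
  apply Set.Finite.subset
    ((Set.finite_Iic (Finsupp.equivFunOnFinite.symm (fun _ : Fin q => w))).prod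
      (Set.finite_univ (α := Finset (Fin m))))
  intro p hp
  simp only [Set.mem_ofPred_eq] at hp
  refine ⟨?_, trivial⟩
  rw [Set.mem_Iic, Finsupp.le_def]
  intro i
  simpa using (le_of_wt wx wy hx p i).trans hp

/-- The finite set of monomials of weight `w`. -/
noncomputable def idx (wx : Fin q → ℕ) (wy : Fin m → ℕ) (hx : ∀ i, 0 < wx i) (w : ℕ) :
    Finset ((Fin q →₀ ℕ) × Finset (Fin m)) :=
  ((finite_wt wx wy hx w).subset (t := {p | wt wx wy p = w}) (fun _ hp => le_of_eq hp)).toFinset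

theorem mem_idx (wx : Fin q → ℕ) (wy : Fin m → ℕ) (hx : ∀ i, 0 < wx i) (w : ℕ)
    (p : (Fin q →₀ ℕ) × Finset (Fin m)) : p ∈ idx wx wy hx w ↔ wt wx wy p = w := by
  simp [idx]

/-- The geometric series `sum_k X^(w k)`. -/
noncomputable def geo (w : ℕ) : PowerSeries ℤ := PowerSeries.mk (fun k => if w ∣ k then 1 else 0)

theorem geo_mul (w : ℕ) (hw : 0 < w) : geo w * (1 - PowerSeries.X ^ w) = 1 := by
  ext n
  rw [mul_sub, mul_one, map_sub, PowerSeries.coeff_mul_X_pow', PowerSeries.coeff_one]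
  unfold geo
  simp only [PowerSeries.coeff_mk]
  rcases Nat.eq_zero_or_pos n with rfl | hn
  · simp [hw.ne']
  · rw [if_neg hn.ne']
    by_cases hwn : w ≤ n
    · rw [if_pos hwn]
      have : w ∣ n ↔ w ∣ n - w := by
        constructor
        · intro h; exact Nat.dvd_sub h dvd_rfl
        · intro h
          have := (Nat.dvd_add_right (dvd_refl w)).mpr h
          rwa [Nat.add_sub_cancel' hwn] at this
      by_cases hd : w ∣ n
      · rw [if_pos hd, if_pos (this.mp hd)]; simp
      · rw [if_neg hd, if_neg (fun h => hd (this.mpr h))]; simp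
    · rw [if_neg hwn, if_neg]
      · simp
      · intro h
        exact hwn (Nat.le_of_dvd hn h)

theorem coeff_geo_prod (wx : Fin q → ℕ) (hx : ∀ i, 0 < wx i) (n : ℕ) :
    PowerSeries.coeff n (∏ i, geo (wx i))
      = ((idx wx (fun _ : Fin 0 => 0) hx n).card : ℤ) := by
  rw [PowerSeries.coeff_prod]
  have h1 : ∀ l : Fin q →₀ ℕ, ∏ i, PowerSeries.coeff (l i) (geo (wx i))
      = if ∀ i, wx i ∣ l i then 1 else 0 := by
    intro l
    unfold geo
    simp only [PowerSeries.coeff_mk]
    by_cases h : ∀ i, wx i ∣ l i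
    · rw [if_pos h]
      exact Finset.prod_eq_one (fun i _ => if_pos (h i))
    · rw [if_neg h]
      push Not at h
      obtain ⟨i, hi⟩ := h
      exact Finset.prod_eq_zero (mem_univ i) (if_neg hi)
  simp only [h1]
  rw [Finset.sum_ite]
  simp only [sum_const_zero, add_zero, sum_const, nsmul_eq_mul, mul_one]
  congr 1
  symm
  refine Finset.card_bij'
    (fun (p : (Fin q →₀ ℕ) × Finset (Fin 0)) _ =>
      Finsupp.equivFunOnFinite.symm (fun i => p.1 i * wx i))
    (fun (l : Fin q →₀ ℕ) _ => (Finsupp.equivFunOnFinite.symm (fun i => l i / wx i), ∅))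
    ?_ ?_ ?_ ?_
  · intro p hp
    rw [mem_idx] at hp
    rw [mem_filter, mem_finsuppAntidiag]
    refine ⟨⟨?_, Finset.subset_univ _⟩, ?_⟩
    · simpa [wt] using hp
    · intro i
      simp
  · intro l hl
    rw [mem_filter, mem_finsuppAntidiag] at hl
    rw [mem_idx]
    simp only [wt, Finsupp.equivFunOnFinite_symm_apply_apply, sum_empty, add_zero]
    rw [← hl.1.1]
    apply Finset.sum_congr rfl
    intro i _
    exact Nat.div_mul_cancel (hl.2 i)
  · intro p _
    refine Prod.ext ?_ ?_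
    · ext i
      simp [Nat.mul_div_cancel _ (hx i)]
    · exact Subsingleton.elim _ _
  · intro l hl
    rw [mem_filter, mem_finsuppAntidiag] at hl
    ext i
    simp [Nat.div_mul_cancel (hl.2 i)]

/-- The Euler characteristic series. -/
noncomputable def ser (wx : Fin q → ℕ) (wy : Fin m → ℕ) : PowerSeries ℤ :=
  (∏ i, geo (wx i)) * ∏ j, (1 - PowerSeries.X ^ wy j)

theorem ser_mul (wx : Fin q → ℕ) (wy : Fin m → ℕ) (hx : ∀ i, 0 < wx i) :
    ser wx wy * ∏ i, (1 - PowerSeries.X ^ wx i) = ∏ j, (1 - PowerSeries.X ^ wy j) := by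
  unfold ser
  have h : (∏ i, geo (wx i)) * ∏ i, (1 - PowerSeries.X ^ wx i) = (1 : PowerSeries ℤ) := by
    rw [← Finset.prod_mul_distrib]
    exact Finset.prod_eq_one (fun i _ => geo_mul _ (hx i))
  calc _ = ((∏ i, geo (wx i)) * ∏ i, (1 - PowerSeries.X ^ wx i))
        * ∏ j, (1 - PowerSeries.X ^ wy j) := by ring
    _ = _ := by rw [h, one_mul]

theorem coeff_ser (wx : Fin q → ℕ) (wy : Fin m → ℕ) (hx : ∀ i, 0 < wx i) (w : ℕ) :
    PowerSeries.coeff w (ser wx wy) = ∑ p ∈ idx wx wy hx w, (-1 : ℤ) ^ p.2.card := by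
  unfold ser
  have h1 : (∏ j, (1 - PowerSeries.X ^ wy j) : PowerSeries ℤ)
      = ∑ S : Finset (Fin m), (-1 : PowerSeries ℤ) ^ S.card * PowerSeries.X ^ (∑ j ∈ S, wy j) := by
    have : ∀ j, (1 - PowerSeries.X ^ wy j : PowerSeries ℤ) = 1 + (-1) * PowerSeries.X ^ wy j := by
      intro j; ring
    simp only [this]
    rw [Finset.prod_one_add]
    rw [Finset.powerset_univ]
    apply Finset.sum_congr rfl
    intro S _
    rw [Finset.prod_mul_distrib, Finset.prod_const, Finset.prod_pow_eq_pow_sum]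
  rw [h1, Finset.mul_sum, map_sum]
  have h2 : ∀ S : Finset (Fin m), PowerSeries.coeff w ((∏ i, geo (wx i)) *
      ((-1 : PowerSeries ℤ) ^ S.card * PowerSeries.X ^ (∑ j ∈ S, wy j)))
      = ∑ p ∈ (idx wx wy hx w).filter (fun p => p.2 = S), (-1 : ℤ) ^ p.2.card := by
    intro S
    have e1 : (∏ i, geo (wx i)) * ((-1 : PowerSeries ℤ) ^ S.card * PowerSeries.X ^ (∑ j ∈ S, wy j))
        = PowerSeries.C ((-1 : ℤ) ^ S.card) * ((∏ i, geo (wx i)) * PowerSeries.X ^ (∑ j ∈ S, wy j)) := by
      rw [map_pow, map_neg, map_one]; ring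
    rw [e1, PowerSeries.coeff_C_mul, PowerSeries.coeff_mul_X_pow']
    have e2 : ∑ p ∈ (idx wx wy hx w).filter (fun p => p.2 = S), (-1 : ℤ) ^ p.2.card
        = (-1 : ℤ) ^ S.card * (((idx wx wy hx w).filter (fun p => p.2 = S)).card : ℤ) := by
      rw [Finset.sum_congr rfl (g := fun _ => (-1 : ℤ) ^ S.card)]
      · rw [Finset.sum_const, nsmul_eq_mul, mul_comm]
      · intro p hp
        rw [mem_filter] at hp
        rw [hp.2]
    rw [e2]
    congr 1
    by_cases hle : ∑ j ∈ S, wy j ≤ w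
    · rw [if_pos hle, coeff_geo_prod wx hx]
      congr 1
      refine Finset.card_bij'
        (fun (p : (Fin q →₀ ℕ) × Finset (Fin 0)) _ => ((p.1, S) : (Fin q →₀ ℕ) × Finset (Fin m)))
        (fun (p : (Fin q →₀ ℕ) × Finset (Fin m)) _ => ((p.1, ∅) : (Fin q →₀ ℕ) × Finset (Fin 0)))
        ?_ ?_ ?_ ?_
      · intro p hp
        rw [mem_idx] at hp
        rw [mem_filter, mem_idx]
        refine ⟨?_, rfl⟩
        simp only [wt, sum_const_zero, add_zero] at hp ⊢
        omega
      · intro p hp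
        rw [mem_filter, mem_idx] at hp
        rw [mem_idx]
        obtain ⟨h3, h4⟩ := hp
        simp only [wt, sum_empty, add_zero] at h3 ⊢
        rw [h4] at h3
        omega
      · intro p _
        refine Prod.ext rfl ?_
        exact Subsingleton.elim _ _
      · intro p hp
        rw [mem_filter] at hp
        exact Prod.ext rfl hp.2.symm
    · rw [if_neg hle]
      symm
      rw [Nat.cast_eq_zero, Finset.card_eq_zero, Finset.filter_eq_empty_iff]
      intro p hp h4
      rw [mem_idx] at hp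
      simp only [wt] at hp
      rw [h4] at hp
      omega
  simp only [h2]
  exact Finset.sum_fiberwise (idx wx wy hx w) (fun p => p.2) (fun p => (-1 : ℤ) ^ p.2.card)

/-- **Combinatorial form of the main statement.** -/
theorem main_count (wx : Fin q → ℕ) (wy : Fin m → ℕ) (hx : ∀ i, Odd (wx i))
    (hy : ∀ j, Even (wy j)) (hy0 : ∀ j, 0 < wy j) (h : ℕ)
    (hb : ∀ N, ∑ w ∈ range N,
      (∑ p ∈ idx wx wy (fun i => (hx i).pos) w, (-1 : ℤ) ^ p.2.card).natAbs ≤ h) :
    q ≤ m ∧ 2 * m ≤ h := by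
  have hx0 : ∀ i, 0 < wx i := fun i => (hx i).pos
  have hb' : ∀ N, ∑ w ∈ range N, (PowerSeries.coeff w (ser wx wy)).natAbs ≤ h := by
    intro N
    refine le_trans (le_of_eq ?_) (hb N)
    apply Finset.sum_congr rfl
    intro w _
    rw [coeff_ser wx wy hx0]
  -- finitely many nonzero coefficients
  have hfin : {w | PowerSeries.coeff w (ser wx wy) ≠ 0}.Finite := by
    by_contra hinf
    have hinf' : {w | PowerSeries.coeff w (ser wx wy) ≠ 0}.Infinite := hinf
    obtain ⟨s, hs, hcard⟩ := hinf'.exists_subset_card_eq (h + 1)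
    obtain ⟨N, hN⟩ : ∃ N, s ⊆ range N := by
      refine ⟨s.sup id + 1, ?_⟩
      intro w hw
      rw [Finset.mem_range]
      have := Finset.le_sup (f := id) hw
      simp only [id] at this
      omega
    have h1 : h + 1 ≤ ∑ w ∈ range N, (PowerSeries.coeff w (ser wx wy)).natAbs := by
      calc h + 1 = ∑ _w ∈ s, 1 := by simp [hcard]
        _ ≤ ∑ w ∈ s, (PowerSeries.coeff w (ser wx wy)).natAbs := by
            apply Finset.sum_le_sum
            intro w hw
            have := hs hw
            simp only [Set.mem_ofPred_eq] at this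
            exact Nat.one_le_iff_ne_zero.mpr (by simpa using this)
        _ ≤ _ := Finset.sum_le_sum_of_subset hN
    have := hb' N
    omega
  obtain ⟨N, hN⟩ : ∃ N, ∀ w, N ≤ w → PowerSeries.coeff w (ser wx wy) = 0 := by
    refine ⟨hfin.toFinset.sup id + 1, ?_⟩
    intro w hw
    by_contra hne
    have : w ∈ hfin.toFinset := by simpa using hne
    have := Finset.le_sup (f := id) this
    simp only [id] at this
    omega
  set F : Polynomial ℤ := PowerSeries.trunc N (ser wx wy) with hFdef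
  have hF : (F : PowerSeries ℤ) = ser wx wy := by
    ext w
    rw [Polynomial.coeff_coe, hFdef, PowerSeries.coeff_trunc]
    by_cases hw : w < N
    · rw [if_pos hw]
    · rw [if_neg hw, hN w (not_lt.mp hw)]
  have hmul : F * ∏ i, (1 - Polynomial.X ^ wx i) = ∏ j, (1 - Polynomial.X ^ wy j) := by
    apply Polynomial.coe_injective ℤ
    have c1 : ∀ {n : ℕ} (v : Fin n → ℕ), ((∏ i, (1 - Polynomial.X ^ v i) : Polynomial ℤ) : PowerSeries ℤ)
        = ∏ i, (1 - PowerSeries.X ^ v i) := by
      intro n v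
      have := map_prod (Polynomial.coeToPowerSeries.ringHom (R := ℤ))
        (fun i => (1 - Polynomial.X ^ v i : Polynomial ℤ)) univ
      simp only [Polynomial.coeToPowerSeries.ringHom_apply] at this
      rw [this]
      apply Finset.prod_congr rfl
      intro i _
      rw [Polynomial.coe_sub, Polynomial.coe_one, Polynomial.coe_pow, Polynomial.coe_X]
    change ((F * ∏ i, (1 - Polynomial.X ^ wx i) : Polynomial ℤ) : PowerSeries ℤ) = _
    rw [Polynomial.coe_mul, hF, c1, c1]
    exact ser_mul wx wy hx0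
  obtain ⟨h1, h2⟩ := main_poly wx wy hx hy hy0 F hmul
  refine ⟨h1, h2.trans ?_⟩
  have hsup : F.support ⊆ range N := by
    intro w hw
    rw [Polynomial.mem_support_iff, hFdef, PowerSeries.coeff_trunc] at hw
    rw [Finset.mem_range]
    by_contra hlt
    rw [if_neg hlt] at hw
    exact hw rfl
  calc ∑ n ∈ F.support, (F.coeff n).natAbs ≤ ∑ n ∈ range N, (F.coeff n).natAbs :=
        Finset.sum_le_sum_of_subset hsup
    _ = ∑ w ∈ range N, (PowerSeries.coeff w (ser wx wy)).natAbs := by
        apply Finset.sum_congr rfl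
        intro w _
        rw [← hF, Polynomial.coeff_coe]
    _ ≤ h := hb' N

end Pool.Agent.H68.Hil
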