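import Mathlib

/-! Lower bound of the dimension of the homology of a differential by Euler characteristics of
weight pieces. -/

namespace Pool.Agent.H68.Hil

open Module Submodule

/-- The homology `ker d / im d` of a linear map `d`. -/
abbrev Hlg {K A : Type*} [Field K] [AddCommGroup A] [Module K A] (d : A →ₗ[K] A) : Type _ :=
  LinearMap.ker d ⧸ (LinearMap.range d).submoduleOf (LinearMap.ker d)

variable {K A I : Type*} [Field K] [AddCommGroup A] [Module K A]

/-- Two swapped finite dimensional pieces. -/
theorem rank_pair (d : A →ₗ[K] A) (hd : ∀ a, d (d a) = 0) (E O : Submodule K A)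
    [FiniteDimensional K E] [FiniteDimensional K O]
    (hO : O.map d ≤ E) :
    finrank K (E.map d) + finrank K (O.map d) ≤ finrank K E := by
  have h1 : finrank K (LinearMap.range (d.domRestrict E)) + finrank K (LinearMap.ker (d.domRestrict E))
      = finrank K E := LinearMap.finrank_range_add_finrank_ker _
  have h2 : LinearMap.range (d.domRestrict E) = E.map d := by
    ext x
    simp [Submodule.mem_map]
  rw [h2] at h1
  have h3 : finrank K (O.map d) ≤ finrank K (LinearMap.ker (d.domRestrict E)) := by
    have h4 : finrank K (LinearMap.ker (d.domRestrict E))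
        = finrank K ((LinearMap.ker (d.domRestrict E)).map E.subtype) :=
      (LinearEquiv.finrank_eq (Submodule.equivMapOfInjective _ E.injective_subtype _))
    rw [h4]
    apply Submodule.finrank_mono
    rintro x hx
    have hxE : x ∈ E := hO hx
    refine ⟨⟨x, hxE⟩, ?_, rfl⟩
    obtain ⟨y, _, rfl⟩ := hx
    change d (d y) = 0
    exact hd y
  omega

theorem finrank_span_image (b : Basis I K A) (s : Finset I) :
    finrank K (span K (b '' (s : Set I))) = s.card := by
  classical
  rw [Set.image_eq_range]
  have hli : LinearIndependent K (fun x : (s : Set I) => b x) :=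
    b.linearIndependent.comp _ Subtype.val_injective
  rw [finrank_span_eq_card hli]
  simp

theorem finrank_sup_sum {ι : Type*} (s : Finset ι) (f : ι → Submodule K A)
    [∀ i, FiniteDimensional K (f i)] :
    finrank K (s.sup f : Submodule K A) ≤ ∑ i ∈ s, finrank K (f i) := by
  classical
  induction s using Finset.induction_on with
  | empty => simp
  | insert i s hi ih =>
    rw [Finset.sup_insert, Finset.sum_insert hi]
    have : FiniteDimensional K (s.sup f : Submodule K A) := Submodule.finiteDimensional_finset_sup s f
    refine (Submodule.finrank_add_le_finrank_add_finrank _ _).trans ?_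
    omega

/-- **Euler characteristic bound.** -/
theorem euler_bound (b : Basis I K A) (W : I → ℕ) (e : I → Prop) [DecidablePred e]
    (fib : ℕ → Finset I) (hfib : ∀ w i, i ∈ fib w ↔ W i = w)
    (d : A →ₗ[K] A) (hd : ∀ a, d (d a) = 0)
    (hW : ∀ i, d (b i) ∈ span K (b '' {j | W j = W i ∧ ¬ (e j ↔ e i)}))
    [FiniteDimensional K (Hlg d)] (N : ℕ) :
    ∑ w ∈ Finset.range N, (((fib w).filter e).card - ((fib w).filter (fun i => ¬ e i)).card : ℤ).natAbs
      ≤ finrank K (Hlg d) := by
  classical
  set E : ℕ → Submodule K A := fun w => span K (b '' (((fib w).filter e : Finset I) : Set I)) with hE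
  set O : ℕ → Submodule K A :=
    fun w => span K (b '' (((fib w).filter (fun i => ¬ e i) : Finset I) : Set I)) with hOdef
  have hEf : ∀ w, FiniteDimensional K (E w) := fun w =>
    FiniteDimensional.span_of_finite K ((Finset.finite_toSet _).image _)
  have hOf : ∀ w, FiniteDimensional K (O w) := fun w =>
    FiniteDimensional.span_of_finite K ((Finset.finite_toSet _).image _)
  have hEr : ∀ w, finrank K (E w) = ((fib w).filter e).card := fun w => finrank_span_image b _
  have hOr : ∀ w, finrank K (O w) = ((fib w).filter (fun i => ¬ e i)).card :=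
    fun w => finrank_span_image b _
  have hEO : ∀ w, (E w).map d ≤ O w := by
    intro w
    rw [Submodule.map_span_le]
    rintro _ ⟨i, hi, rfl⟩
    rw [Finset.mem_coe, Finset.mem_filter, hfib] at hi
    refine Submodule.span_mono ?_ (hW i)
    apply Set.image_mono
    intro j hj
    rw [Finset.mem_coe, Finset.mem_filter, hfib]
    obtain ⟨h1, h2⟩ := hj
    refine ⟨h1.trans hi.1, fun h3 => h2 ⟨fun _ => hi.2, fun _ => h3⟩⟩
  have hOE : ∀ w, (O w).map d ≤ E w := by
    intro w
    rw [Submodule.map_span_le]
    rintro _ ⟨i, hi, rfl⟩
    rw [Finset.mem_coe, Finset.mem_filter, hfib] at hi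
    refine Submodule.span_mono ?_ (hW i)
    apply Set.image_mono
    intro j hj
    rw [Finset.mem_coe, Finset.mem_filter, hfib]
    obtain ⟨h1, h2⟩ := hj
    refine ⟨h1.trans hi.1, ?_⟩
    by_contra h3
    exact h2 ⟨fun h4 => absurd h4 h3, fun h4 => absurd h4 hi.2⟩
  -- the truncation
  set T : Finset I := (Finset.range N).biUnion fib with hT
  have hTmem : ∀ i, i ∈ T ↔ W i < N := by
    intro i
    rw [hT, Finset.mem_biUnion]
    constructor
    · rintro ⟨w, hw, hi⟩
      rw [hfib] at hi
      rw [Finset.mem_range] at hw
      omega
    · intro h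
      exact ⟨W i, Finset.mem_range.mpr h, (hfib _ _).mpr rfl⟩
  set U : Submodule K A := span K (b '' (T : Set I)) with hU
  have hUf : FiniteDimensional K U :=
    FiniteDimensional.span_of_finite K ((Finset.finite_toSet _).image _)
  have hUr : finrank K U = T.card := finrank_span_image b T
  have hdU : U.map d ≤ U := by
    rw [hU, Submodule.map_span_le]
    rintro _ ⟨i, hi, rfl⟩
    rw [Finset.mem_coe, hTmem] at hi
    refine Submodule.span_mono ?_ (hW i)
    apply Set.image_mono
    intro j hj
    rw [Finset.mem_coe, hTmem, hj.1]
    exact hi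
  -- card of T
  have hTcard : T.card = ∑ w ∈ Finset.range N,
      (((fib w).filter e).card + ((fib w).filter (fun i => ¬ e i)).card) := by
    rw [hT, Finset.card_biUnion]
    · apply Finset.sum_congr rfl
      intro w _
      exact (Finset.card_filter_add_card_filter_not e).symm
    · intro w _ w' _ hne
      rw [Function.onFun, Finset.disjoint_left]
      intro i h1 h2
      rw [hfib] at h1 h2
      exact hne (h1.symm.trans h2)
  -- rank of d on U
  have hrank : finrank K (U.map d) ≤ ∑ w ∈ Finset.range N,
      min (((fib w).filter e).card) (((fib w).filter (fun i => ¬ e i)).card) := by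
    have hle : U.map d ≤ (Finset.range N).sup (fun w => (E w).map d ⊔ (O w).map d) := by
      rw [hU, Submodule.map_span_le]
      rintro _ ⟨i, hi, rfl⟩
      rw [Finset.mem_coe, hTmem] at hi
      have h1 : (E (W i)).map d ⊔ (O (W i)).map d
          ≤ (Finset.range N).sup (fun w => (E w).map d ⊔ (O w).map d) :=
        Finset.le_sup (f := fun w => (E w).map d ⊔ (O w).map d) (Finset.mem_range.mpr hi)
      apply h1
      by_cases he : e i
      · apply Submodule.mem_sup_left
        refine ⟨b i, Submodule.subset_span ⟨i, ?_, rfl⟩, rfl⟩
        rw [Finset.mem_coe, Finset.mem_filter, hfib]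
        exact ⟨rfl, he⟩
      · apply Submodule.mem_sup_right
        refine ⟨b i, Submodule.subset_span ⟨i, ?_, rfl⟩, rfl⟩
        rw [Finset.mem_coe, Finset.mem_filter, hfib]
        exact ⟨rfl, he⟩
    have hfd : ∀ w, FiniteDimensional K ((E w).map d ⊔ (O w).map d : Submodule K A) := by
      intro w
      infer_instance
    have hfd2 : FiniteDimensional K
        ((Finset.range N).sup (fun w => (E w).map d ⊔ (O w).map d) : Submodule K A) :=
      Submodule.finiteDimensional_finset_sup _ _
    refine (Submodule.finrank_mono hle).trans ?_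
    refine (finrank_sup_sum _ _).trans ?_
    apply Finset.sum_le_sum
    intro w _
    have h1 := rank_pair d hd (E w) (O w) (hOE w)
    have h2 := rank_pair d hd (O w) (E w) (hEO w)
    have h3 := Submodule.finrank_add_le_finrank_add_finrank ((E w).map d) ((O w).map d)
    rw [hEr] at h1
    rw [hOr] at h2
    rw [le_min_iff]
    omega
  -- the projection
  set P : A →ₗ[K] A := b.constr K (fun i => if W i < N then b i else 0) with hP
  have hPb : ∀ i, P (b i) = if W i < N then b i else 0 := fun i => by
    rw [hP, Basis.constr_basis]
  have hPU : ∀ a ∈ U, P a = a := by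
    intro a ha
    have : U ≤ LinearMap.eqLocus P LinearMap.id := by
      rw [hU, Submodule.span_le]
      rintro _ ⟨i, hi, rfl⟩
      rw [Finset.mem_coe, hTmem] at hi
      change P (b i) = b i
      rw [hPb, if_pos hi]
    exact this ha
  have hPmem : ∀ a, P a ∈ U := by
    intro a
    have : LinearMap.range P ≤ U := by
      rw [hP, Basis.constr_range, Submodule.span_le]
      rintro _ ⟨i, rfl⟩
      change (if W i < N then b i else 0) ∈ U
      split_ifs with h
      · exact Submodule.subset_span ⟨i, (hTmem i).mpr h, rfl⟩
      · exact Submodule.zero_mem _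
    exact this ⟨a, rfl⟩
  have hPd : ∀ a, P (d a) = d (P a) := by
    intro a
    have : P ∘ₗ d = d ∘ₗ P := by
      apply b.ext
      intro i
      change P (d (b i)) = d (P (b i))
      rw [hPb]
      split_ifs with h
      · apply hPU
        apply hdU
        exact ⟨b i, Submodule.subset_span ⟨i, (hTmem i).mpr h, rfl⟩, rfl⟩
      · rw [map_zero]
        have h1 : span K (b '' {j | W j = W i ∧ ¬ (e j ↔ e i)}) ≤ LinearMap.ker P := by
          rw [Submodule.span_le]
          rintro _ ⟨j, hj, rfl⟩
          change P (b j) = 0
          rw [hPb, if_neg]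
          rw [hj.1]
          exact h
        exact h1 (hW i)
    exact LinearMap.congr_fun this a
  -- the comparison map
  set Z : Submodule K U := LinearMap.ker (d.domRestrict U) with hZ
  have hZr : finrank K (U.map d) + finrank K Z = finrank K U := by
    have h1 := LinearMap.finrank_range_add_finrank_ker (d.domRestrict U)
    have h2 : LinearMap.range (d.domRestrict U) = U.map d := by
      ext x
      simp [Submodule.mem_map]
    rw [h2] at h1
    exact h1
  let g : Z →ₗ[K] LinearMap.ker d :=
    { toFun := fun z => ⟨(z : U), z.2⟩
      map_add' := fun _ _ => rfl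
      map_smul' := fun _ _ => rfl }
  let φ : Z →ₗ[K] Hlg d := (Submodule.mkQ _) ∘ₗ g
  have hker : finrank K (LinearMap.ker φ) ≤ finrank K (U.map d) := by
    -- embed `ker φ` in `U.map d`
    let ψ : LinearMap.ker φ →ₗ[K] A := U.subtype ∘ₗ Z.subtype ∘ₗ (LinearMap.ker φ).subtype
    have hψ : Function.Injective ψ := by
      intro x y hxy
      apply Subtype.ext
      apply Subtype.ext
      apply Subtype.ext
      exact hxy
    have hψr : LinearMap.range ψ ≤ U.map d := by
      rintro _ ⟨z, rfl⟩
      have hz : φ z = 0 := z.2
      change (Submodule.Quotient.mk (g z) : Hlg d) = 0 at hz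
      rw [Submodule.Quotient.mk_eq_zero] at hz
      obtain ⟨a, ha⟩ := hz
      refine ⟨P a, hPmem a, ?_⟩
      rw [← hPd, ha]
      exact hPU _ ((z : Z) : U).2
    calc finrank K (LinearMap.ker φ) = finrank K (LinearMap.range ψ) :=
          (LinearMap.finrank_range_of_inj hψ).symm
      _ ≤ _ := Submodule.finrank_mono hψr
  have hφ : finrank K (LinearMap.range φ) + finrank K (LinearMap.ker φ) = finrank K Z :=
    LinearMap.finrank_range_add_finrank_ker φ
  have hφ2 : finrank K (LinearMap.range φ) ≤ finrank K (Hlg d) := Submodule.finrank_le _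
  -- conclusion
  have hfinal : ∑ w ∈ Finset.range N,
      (((fib w).filter e).card - ((fib w).filter (fun i => ¬ e i)).card : ℤ).natAbs
      + 2 * ∑ w ∈ Finset.range N,
        min (((fib w).filter e).card) (((fib w).filter (fun i => ¬ e i)).card) = T.card := by
    rw [hTcard, Finset.mul_sum, ← Finset.sum_add_distrib]
    apply Finset.sum_congr rfl
    intro w _
    omega
  omega

end Pool.Agent.H68.Hil
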