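import Mathlib
import Pool.Agent.H68.Hil.Count
import Pool.Agent.H68.Hil.Lin

/-! Minimal Sullivan algebras with differential of homogeneous word length, for an algebra with a
monomial basis. -/

namespace Pool.Agent.H68.Hil

open Finset

variable {K A : Type*} [Field K] [Ring A] [Algebra K A] {q m : ℕ}

/-- The component of degree `n` and word length `l`: the span of the products of `l` generators
whose degrees sum to `n`. -/
def cmp (K : Type*) {A : Type*} [Field K] [Ring A] [Algebra K A] {q m : ℕ}
    (g : Fin q ⊕ Fin m → A) (deg : Fin q ⊕ Fin m → ℕ) (n l : ℕ) : Submodule K A :=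
  Submodule.span K {a | ∃ L : List (Fin q ⊕ Fin m),
    L.length = l ∧ (L.map deg).sum = n ∧ (L.map g).prod = a}

/-- `b` is a monomial basis for the generators `g`. -/
structure IsMon (g : Fin q ⊕ Fin m → A)
    (b : Module.Basis ((Fin q →₀ ℕ) × Finset (Fin m)) K A) : Prop where
  one : b (0, ∅) = 1
  inl : ∀ i a S, g (Sum.inl i) * b (a, S) = b (a + Finsupp.single i 1, S)
  inr_mem : ∀ j a S, j ∈ S → g (Sum.inr j) * b (a, S) = 0
  inr_notMem : ∀ j a S, j ∉ S → g (Sum.inr j) * b (a, S) = b (a, insert j S) ∨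
    g (Sum.inr j) * b (a, S) = - b (a, insert j S)

/-- Differentials of word length `k`. -/
structure IsDif (K : Type*) {A : Type*} [Field K] [Ring A] [Algebra K A] {q m : ℕ}
    (g : Fin q ⊕ Fin m → A) (deg : Fin q ⊕ Fin m → ℕ) (k : ℕ) (d : A → A) : Prop where
  even_deg : ∀ i : Fin q, Even (deg (Sum.inl i))
  odd_deg : ∀ j : Fin m, Odd (deg (Sum.inr j))
  two_le_deg : ∀ v, 2 ≤ deg v
  sq_zero : ∀ a, d (d a) = 0
  leibniz : ∀ (n l : ℕ) (a b : A), a ∈ cmp K g deg n l →
    d (a * b) = d a * b + (-1) ^ n * (a * d b)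
  map_gen : ∀ v, d (g v) ∈ cmp K g deg (deg v + 1) k

/-- Degree of a monomial. -/
def dg (deg : Fin q ⊕ Fin m → ℕ) (p : (Fin q →₀ ℕ) × Finset (Fin m)) : ℕ :=
  ∑ i, p.1 i * deg (Sum.inl i) + ∑ j ∈ p.2, deg (Sum.inr j)

/-- Word length of a monomial. -/
def wl (p : (Fin q →₀ ℕ) × Finset (Fin m)) : ℕ := ∑ i, p.1 i + p.2.card

/-- Products of components. -/
theorem cmp_mul (g : Fin q ⊕ Fin m → A) (deg : Fin q ⊕ Fin m → ℕ) {n l n' l' : ℕ} {a b : A}
    (ha : a ∈ cmp K g deg n l) (hb : b ∈ cmp K g deg n' l') :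
    a * b ∈ cmp K g deg (n + n') (l + l') := by
  have h : cmp K g deg n l * cmp K g deg n' l' ≤ cmp K g deg (n + n') (l + l') := by
    unfold cmp
    rw [Submodule.span_mul_span]
    apply Submodule.span_mono
    rintro _ ⟨x, ⟨L, h1, h2, rfl⟩, y, ⟨L', h3, h4, rfl⟩, rfl⟩
    refine ⟨L ++ L', ?_, ?_, ?_⟩
    · simp [h1, h3]
    · simp [h2, h4]
    · simp
  exact h (Submodule.mul_mem_mul ha hb)

theorem gen_mem_cmp (g : Fin q ⊕ Fin m → A) (deg : Fin q ⊕ Fin m → ℕ) (v : Fin q ⊕ Fin m) :
    g v ∈ cmp K g deg (deg v) 1 :=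
  Submodule.subset_span ⟨[v], by simp, by simp, by simp⟩

theorem one_mem_cmp (g : Fin q ⊕ Fin m → A) (deg : Fin q ⊕ Fin m → ℕ) :
    (1 : A) ∈ cmp K g deg 0 0 :=
  Submodule.subset_span ⟨[], by simp, by simp, by simp⟩

theorem dg_add_single (deg : Fin q ⊕ Fin m → ℕ) (i : Fin q) (a : Fin q →₀ ℕ) (S : Finset (Fin m)) :
    dg deg (a + Finsupp.single i 1, S) = deg (Sum.inl i) + dg deg (a, S) := by
  unfold dg
  simp only [Finsupp.add_apply, add_mul, Finset.sum_add_distrib]
  have : ∑ x, (Finsupp.single i 1) x * deg (Sum.inl x) = deg (Sum.inl i) := by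
    rw [Finset.sum_eq_single i]
    · simp
    · intro b _ hb; simp [hb.symm]
    · simp
  rw [this]
  ring

theorem wl_add_single (i : Fin q) (a : Fin q →₀ ℕ) (S : Finset (Fin m)) :
    wl (a + Finsupp.single i 1, S) = 1 + wl (a, S) := by
  unfold wl
  simp only [Finsupp.add_apply, Finset.sum_add_distrib]
  have : ∑ x, (Finsupp.single i 1 : Fin q →₀ ℕ) x = 1 := by
    rw [Finset.sum_eq_single i]
    · simp
    · intro b _ hb; simp [hb.symm]
    · simp
  rw [this]
  ring

theorem dg_insert (deg : Fin q ⊕ Fin m → ℕ) (j : Fin m) (a : Fin q →₀ ℕ) (S : Finset (Fin m))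
    (hj : j ∉ S) : dg deg (a, insert j S) = deg (Sum.inr j) + dg deg (a, S) := by
  unfold dg
  simp only [Finset.sum_insert hj]
  ring

theorem wl_insert (j : Fin m) (a : Fin q →₀ ℕ) (S : Finset (Fin m))
    (hj : j ∉ S) : wl (a, insert j S) = 1 + wl (a, S) := by
  unfold wl
  simp only [Finset.card_insert_of_notMem hj]
  ring

theorem bas_mem_cmp {g : Fin q ⊕ Fin m → A}
    {b : Module.Basis ((Fin q →₀ ℕ) × Finset (Fin m)) K A} (hb : IsMon g b)
    (deg : Fin q ⊕ Fin m → ℕ) (p : (Fin q →₀ ℕ) × Finset (Fin m)) :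
    b p ∈ cmp K g deg (dg deg p) (wl p) := by
  obtain ⟨a, S⟩ := p
  induction S using Finset.induction_on with
  | empty =>
    induction hn : ∑ i, a i generalizing a with
    | zero =>
      have h0 : a = 0 := by
        ext i
        have := Finset.sum_eq_zero_iff.mp hn i (mem_univ i)
        simpa using this
      subst h0
      rw [hb.one]
      have h1 : dg deg ((0 : Fin q →₀ ℕ), (∅ : Finset (Fin m))) = 0 := by simp [dg]
      have h2 : wl ((0 : Fin q →₀ ℕ), (∅ : Finset (Fin m))) = 0 := by simp [wl]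
      rw [h1, h2]
      exact one_mem_cmp g deg
    | succ n ih =>
      have hex : ∃ i, a i ≠ 0 := by
        by_contra hcon
        push Not at hcon
        rw [Finset.sum_eq_zero (fun i _ => hcon i)] at hn
        omega
      obtain ⟨i, hi⟩ := hex
      have hle : Finsupp.single i 1 ≤ a := by
        rw [Finsupp.single_le_iff]
        omega
      obtain ⟨c, rfl⟩ : ∃ c, a = c + Finsupp.single i 1 :=
        ⟨a - Finsupp.single i 1, (tsub_add_cancel_of_le hle).symm⟩
      have hc : ∑ x, c x = n := by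
        have h5 : ∑ x, (Finsupp.single i 1 : Fin q →₀ ℕ) x = 1 := by
          rw [Finset.sum_eq_single i]
          · simp
          · intro b _ hb; simp [hb.symm]
          · simp
        simp only [Finsupp.add_apply, Finset.sum_add_distrib] at hn
        omega
      rw [← hb.inl, dg_add_single, wl_add_single]
      exact cmp_mul g deg (gen_mem_cmp g deg _) (ih c hc)
  | insert j S hj ih =>
    rw [dg_insert deg j a S hj, wl_insert j a S hj]
    have h1 := cmp_mul g deg (gen_mem_cmp (K := K) g deg (Sum.inr j)) ih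
    rcases hb.inr_notMem j a S hj with h | h
    · rwa [h] at h1
    · rw [h] at h1
      simpa using Submodule.neg_mem _ h1

/-- Components are spanned by monomials. -/
theorem cmp_le_span {g : Fin q ⊕ Fin m → A}
    {b : Module.Basis ((Fin q →₀ ℕ) × Finset (Fin m)) K A} (hb : IsMon g b)
    (deg : Fin q ⊕ Fin m → ℕ) (n l : ℕ) :
    cmp K g deg n l ≤ Submodule.span K (b '' {p | dg deg p = n ∧ wl p = l}) := by
  unfold cmp
  rw [Submodule.span_le]
  rintro _ ⟨L, h1, h2, rfl⟩
  induction L generalizing n l with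
  | nil =>
    simp only [List.length_nil] at h1
    simp only [List.map_nil, List.sum_nil] at h2
    subst h1; subst h2
    apply Submodule.subset_span
    refine ⟨(0, ∅), ⟨by simp [dg], by simp [wl]⟩, ?_⟩
    rw [hb.one]; simp
  | cons v L ih =>
    simp only [List.length_cons] at h1
    simp only [List.map_cons, List.sum_cons] at h2
    simp only [List.map_cons, List.prod_cons]
    have ih' := ih (L.map deg).sum L.length rfl rfl
    have key : ∀ x ∈ Submodule.span K
        (b '' {p | dg deg p = (L.map deg).sum ∧ wl p = L.length}),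
        g v * x ∈ Submodule.span K (b '' {p | dg deg p = n ∧ wl p = l}) := by
      intro x hx
      induction hx using Submodule.span_induction with
      | mem x hx =>
        obtain ⟨⟨a, S⟩, ⟨hp1, hp2⟩, rfl⟩ := hx
        rcases v with i | j
        · rw [hb.inl]
          apply Submodule.subset_span
          refine ⟨_, ⟨?_, ?_⟩, rfl⟩
          · rw [dg_add_single, hp1]; exact h2
          · rw [wl_add_single, hp2]; omega
        · by_cases hj : j ∈ S
          · rw [hb.inr_mem j a S hj]
            exact Submodule.zero_mem _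
          · have hmem : b (a, insert j S) ∈
                Submodule.span K (b '' {p | dg deg p = n ∧ wl p = l}) := by
              apply Submodule.subset_span
              refine ⟨_, ⟨?_, ?_⟩, rfl⟩
              · rw [dg_insert deg j a S hj, hp1]; exact h2
              · rw [wl_insert j a S hj, hp2]; omega
            rcases hb.inr_notMem j a S hj with h | h
            · rwa [h]
            · rw [h]; exact Submodule.neg_mem _ hmem
      | zero => rw [mul_zero]; exact Submodule.zero_mem _
      | add x y _ _ hx hy => rw [mul_add]; exact Submodule.add_mem _ hx hy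
      | smul c x _ hx => rw [mul_smul_comm]; exact Submodule.smul_mem _ _ hx
    exact key _ ih'

variable {g : Fin q ⊕ Fin m → A} {deg : Fin q ⊕ Fin m → ℕ} {k : ℕ} {d : A →ₗ[K] A}

theorem IsDif.map_one (hd : IsDif K g deg k d) : d 1 = 0 := by
  have h := hd.leibniz 0 0 1 1 (one_mem_cmp g deg)
  simpa using h

theorem IsDif.map_cmp (hd : IsDif K g deg k d) (hk : 1 ≤ k) (n l : ℕ) (a : A)
    (ha : a ∈ cmp K g deg n l) : d a ∈ cmp K g deg (n + 1) (l + (k - 1)) := by
  have key : cmp K g deg n l ≤ (cmp K g deg (n + 1) (l + (k - 1))).comap d := by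
    clear ha
    unfold cmp
    rw [Submodule.span_le]
    rintro _ ⟨L, h1, h2, rfl⟩
    rw [SetLike.mem_coe, Submodule.mem_comap]
    change d ((L.map g).prod) ∈ cmp K g deg (n + 1) (l + (k - 1))
    induction L generalizing n l with
    | nil =>
      simp only [List.map_nil, List.prod_nil]
      rw [hd.map_one]
      exact Submodule.zero_mem _
    | cons v L ih =>
      simp only [List.length_cons] at h1
      simp only [List.map_cons, List.sum_cons] at h2
      simp only [List.map_cons, List.prod_cons]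
      rw [hd.leibniz (deg v) 1 _ _ (gen_mem_cmp g deg v)]
      have hw : (L.map g).prod ∈ cmp K g deg (L.map deg).sum L.length :=
        Submodule.subset_span ⟨L, rfl, rfl, rfl⟩
      have ih' := ih (L.map deg).sum L.length rfl rfl
      apply Submodule.add_mem
      · have h3 := cmp_mul g deg (hd.map_gen v) hw
        have e1 : deg v + 1 + (L.map deg).sum = n + 1 := by omega
        have e2 : k + L.length = l + (k - 1) := by omega
        rwa [e1, e2] at h3
      · have h3 := cmp_mul g deg (gen_mem_cmp (K := K) g deg v) ih'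
        have e1 : deg v + ((L.map deg).sum + 1) = n + 1 := by omega
        have e2 : 1 + (L.length + (k - 1)) = l + (k - 1) := by omega
        rw [e1, e2] at h3
        rcases neg_one_pow_eq_or A (deg v) with h | h
        · rw [h, one_mul]; exact h3
        · rw [h, neg_one_mul]; exact Submodule.neg_mem _ h3
  exact key ha

/-- Weight, degree and word length. -/
theorem wt_add_wl (hdeg : ∀ v, 2 ≤ deg v) (hk : 2 ≤ k) (p : (Fin q →₀ ℕ) × Finset (Fin m)) :
    wt (fun i => (k - 1) * deg (Sum.inl i) - 1) (fun j => (k - 1) * deg (Sum.inr j) - 1) p + wl p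
      = (k - 1) * dg deg p := by
  have hpos : ∀ v, 1 ≤ (k - 1) * deg v := fun v =>
    Nat.mul_pos (by omega) (by have := hdeg v; omega)
  unfold wt wl dg
  have h1 : ∑ i, p.1 i * ((k - 1) * deg (Sum.inl i) - 1) + ∑ i, p.1 i
      = (k - 1) * ∑ i, p.1 i * deg (Sum.inl i) := by
    rw [← Finset.sum_add_distrib, Finset.mul_sum]
    apply Finset.sum_congr rfl
    intro i _
    have h2 := hpos (Sum.inl i)
    calc p.1 i * ((k - 1) * deg (Sum.inl i) - 1) + p.1 i
        = p.1 i * ((k - 1) * deg (Sum.inl i) - 1 + 1) := by ring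
      _ = p.1 i * ((k - 1) * deg (Sum.inl i)) := by rw [Nat.sub_add_cancel h2]
      _ = _ := by ring
  have h3 : ∑ j ∈ p.2, ((k - 1) * deg (Sum.inr j) - 1) + p.2.card
      = (k - 1) * ∑ j ∈ p.2, deg (Sum.inr j) := by
    rw [Finset.card_eq_sum_ones, ← Finset.sum_add_distrib, Finset.mul_sum]
    apply Finset.sum_congr rfl
    intro j _
    exact Nat.sub_add_cancel (hpos (Sum.inr j))
  rw [mul_add, ← h1, ← h3]
  ring

theorem parity_dg (he : ∀ i : Fin q, Even (deg (Sum.inl i))) (ho : ∀ j : Fin m, Odd (deg (Sum.inr j)))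
    (p : (Fin q →₀ ℕ) × Finset (Fin m)) : Even (dg deg p) ↔ Even p.2.card := by
  unfold dg
  have h1 : Even (∑ i, p.1 i * deg (Sum.inl i)) :=
    Finset.even_sum _ (fun i _ => (he i).mul_left _)
  rw [Nat.even_add]
  have h2 : Even (∑ j ∈ p.2, deg (Sum.inr j)) ↔ Even p.2.card := by
    rw [Finset.even_sum_iff_even_card_odd]
    have : p.2.filter (fun j => Odd (deg (Sum.inr j))) = p.2 := by
      rw [Finset.filter_eq_self]
      intro j _
      exact ho j
    rw [this]
  rw [h2]
  exact ⟨fun h => h.mp h1, fun h => ⟨fun _ => h, fun _ => h1⟩⟩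

/-- **Main theorem.** -/
theorem main {b : Module.Basis ((Fin q →₀ ℕ) × Finset (Fin m)) K A} (hb : IsMon g b)
    (hk : Even k) (hk0 : 0 < k) (hd : IsDif K g deg k d)
    (hfin : FiniteDimensional K (Hlg d)) : q ≤ m ∧ 2 * m ≤ Module.finrank K (Hlg d) := by
  have hk2 : 2 ≤ k := by obtain ⟨r, hr⟩ := hk; omega
  have hkodd : Odd (k - 1) := Nat.Even.sub_odd (by omega) hk odd_one
  have hpos : ∀ v, 1 ≤ (k - 1) * deg v := fun v =>
    Nat.mul_pos (by omega) (by have := hd.two_le_deg v; omega)
  have hx : ∀ i : Fin q, Odd ((k - 1) * deg (Sum.inl i) - 1) := fun i =>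
    Nat.Even.sub_odd (hpos _) ((hd.even_deg i).mul_left _) odd_one
  have hy : ∀ j : Fin m, Even ((k - 1) * deg (Sum.inr j) - 1) := fun j =>
    Nat.Odd.sub_odd (hkodd.mul (hd.odd_deg j)) odd_one
  have hy0 : ∀ j : Fin m, 0 < (k - 1) * deg (Sum.inr j) - 1 := by
    intro j
    have h1 := hd.two_le_deg (Sum.inr j)
    have h2 : 1 * deg (Sum.inr j) ≤ (k - 1) * deg (Sum.inr j) :=
      Nat.mul_le_mul_right _ (by omega)
    omega
  apply main_count (fun i => (k - 1) * deg (Sum.inl i) - 1)
    (fun j => (k - 1) * deg (Sum.inr j) - 1) hx hy hy0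
  intro N
  have h := euler_bound b
    (wt (fun i => (k - 1) * deg (Sum.inl i) - 1) (fun j => (k - 1) * deg (Sum.inr j) - 1))
    (fun p => Even p.2.card)
    (idx (fun i => (k - 1) * deg (Sum.inl i) - 1) (fun j => (k - 1) * deg (Sum.inr j) - 1)
      (fun i => (hx i).pos))
    (fun w p => mem_idx _ _ _ w p) d hd.sq_zero ?_ N
  · refine le_trans (le_of_eq ?_) h
    apply Finset.sum_congr rfl
    intro w _
    congr 1
    rw [← Finset.sum_filter_add_sum_filter_not _ (fun p => Even p.2.card)]
    rw [Finset.sum_congr rfl (g := fun _ => (1 : ℤ)),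
      Finset.sum_congr rfl (g := fun _ => (-1 : ℤ))
        (s₁ := (idx _ _ _ w).filter (fun p => ¬ Even p.2.card))]
    · simp
      ring
    · intro p hp
      rw [mem_filter] at hp
      exact (Nat.not_even_iff_odd.mp hp.2).neg_one_pow
    · intro p hp
      rw [mem_filter] at hp
      exact hp.2.neg_one_pow
  · intro p
    have h1 := hd.map_cmp (by omega) _ _ _ (bas_mem_cmp hb deg p)
    have h2 := cmp_le_span hb deg _ _ h1
    refine Submodule.span_mono ?_ h2
    apply Set.image_mono
    rintro p' ⟨h3, h4⟩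
    have e1 := wt_add_wl hd.two_le_deg hk2 p
    have e2 := wt_add_wl hd.two_le_deg hk2 p'
    rw [h3, h4] at e2
    refine ⟨?_, ?_⟩
    · have : (k - 1) * (dg deg p + 1) = (k - 1) * dg deg p + (k - 1) := by ring
      omega
    · rw [← parity_dg hd.even_deg hd.odd_deg p', ← parity_dg hd.even_deg hd.odd_deg p, h3]
      rw [Nat.even_add_one]
      tauto

end Pool.Agent.H68.Hil
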