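import Mathlib
import Pool.Agent.H68.Hil.Sullivan
import Pool.Agent.H68.Hil.Sul
import Pool.Agent.H68.Hil.Ext

/-! The monomial basis of the algebra `ΛV`. -/

namespace Pool.Agent.H68.Sullivan

theorem gen_eq {K : Type*} [Field K] {q m : ℕ} (v : Fin q ⊕ Fin m) :
    (gen K q m v : Hil.Lam K q m) = Hil.gen K q m v := by
  rcases v with i | j
  · rfl
  · change ExteriorAlgebra.ι (MvPolynomial (Fin q) K)
      ((fun i => if i = j then 1 else 0) : Fin m → MvPolynomial (Fin q) K) =
      ExteriorAlgebra.ι (MvPolynomial (Fin q) K) (Pi.single j 1)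
    congr 1
    funext i
    rw [Pi.single_apply]

/-- The monomial basis. -/
noncomputable def mon (K : Type*) [Field K] (q m : ℕ) :
    Module.Basis ((Fin q →₀ ℕ) × Finset (Fin m)) K (Lam K q m) :=
  Hil.bas K q m

theorem mon_eq {K : Type*} [Field K] {q m : ℕ} (p : (Fin q →₀ ℕ) × Finset (Fin m)) :
    (mon K q m p : Hil.Lam K q m) = Hil.bas K q m p := rfl

theorem mul_eq {K : Type*} [Field K] {q m : ℕ} (a b : Lam K q m) :
    (a * b : Lam K q m) = ((a : Hil.Lam K q m) * (b : Hil.Lam K q m) : Hil.Lam K q m) := rfl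

theorem isMon (K : Type*) [Field K] (q m : ℕ) : Hil.IsMon (gen K q m) (mon K q m) where
  one := Hil.bas_zero
  inl i a S := by
    rw [mul_eq, gen_eq]
    exact Hil.gen_inl_mul_bas i a S
  inr_mem j a S hj := by
    rw [mul_eq, gen_eq]
    exact Hil.gen_inr_mul_bas_of_mem j a S hj
  inr_notMem j a S hj := by
    rw [mul_eq, gen_eq]
    exact Hil.gen_inr_mul_bas j a S hj

end Pool.Agent.H68.Sullivan
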